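import Pool.Agent.helper17.CH.SpecV

/-!
# Project CH (MP_5628fe_nt), part V: row EM

The sum of `(n+θ)^(it)` over `n ≤ u` compared with the integral.
-/

set_option autoImplicit false

namespace Pool.Agent.CH

open Finset

private lemma EM_norm_nit (t x : ℝ) : ‖nit t x‖ = 1 := by
  unfold nit
  exact Complex.norm_exp_ofReal_mul_I _

private lemma EM_nit_sub (t a b : ℝ) : ‖nit t a - nit t b‖ ≤ |t| * |Real.log a - Real.log b| := by
  have h1 : nit t a = nit t b *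
      Complex.exp (Complex.I * ((t * Real.log a - t * Real.log b : ℝ) : ℂ)) := by
    unfold nit
    rw [← Complex.exp_add]
    congr 1
    push_cast
    ring
  have h2 : nit t a - nit t b = nit t b *
      (Complex.exp (Complex.I * ((t * Real.log a - t * Real.log b : ℝ) : ℂ)) - 1) := by
    rw [mul_sub, mul_one, ← h1]
  rw [h2, norm_mul, EM_norm_nit, one_mul]
  refine (Real.norm_exp_I_mul_ofReal_sub_one_le).trans (le_of_eq ?_)
  rw [Real.norm_eq_abs, ← mul_sub, abs_mul]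

/-- The antiderivative `v^(1+it)/(1+it)`. -/
private noncomputable def EM_g (t v : ℝ) : ℂ := (v : ℂ) * nit t v / (1 + t * Complex.I)

private lemma EM_den (t : ℝ) : (1 + t * Complex.I : ℂ) ≠ 0 := by
  intro h
  have := congrArg Complex.re h
  simp at this

private lemma EM_den_norm (t : ℝ) : |t| ≤ ‖(1 + t * Complex.I : ℂ)‖ := by
  have h := Complex.abs_im_le_norm (1 + t * Complex.I : ℂ)
  simpa using h

private lemma EM_g_deriv (t : ℝ) {v : ℝ} (hv : 0 < v) : HasDerivAt (EM_g t) (nit t v) v := by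
  have h1 : HasDerivAt (fun w : ℝ => t * Real.log w) (t * v⁻¹) v :=
    (Real.hasDerivAt_log hv.ne').const_mul t
  have h2 : HasDerivAt (fun w : ℝ => nit t w) (nit t v * (((t * v⁻¹ : ℝ) : ℂ) * Complex.I)) v := by
    unfold nit
    exact (h1.ofReal_comp.mul_const Complex.I).cexp
  have h3 : HasDerivAt (fun w : ℝ => (w : ℂ)) ((1 : ℝ) : ℂ) v := (hasDerivAt_id v).ofReal_comp
  have h4 := (h3.mul h2).div_const (1 + t * Complex.I : ℂ)
  have hvc : (v : ℂ) ≠ 0 := by exact_mod_cast hv.ne'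
  have h5 : (((1 : ℝ) : ℂ) * nit t v + (v : ℂ) * (nit t v * (((t * v⁻¹ : ℝ) : ℂ) * Complex.I))) /
      (1 + t * Complex.I) = nit t v := by
    rw [div_eq_iff (EM_den t)]
    push_cast
    field_simp
  rw [h5] at h4
  exact h4

private lemma EM_step (t : ℝ) {a : ℝ} (ha : 0 < a) :
    ‖nit t (a + 1) - (EM_g t (a + 1) - EM_g t a)‖ ≤ |t| * (Real.log (a + 1) - Real.log a) := by
  have hF : ∀ x ∈ Set.Icc a (a + 1), HasDerivWithinAt
      (fun v : ℝ => (v : ℂ) * nit t (a + 1) - EM_g t v) (nit t (a + 1) - nit t x)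
      (Set.Icc a (a + 1)) x := by
    intro x hx
    have hx0 : 0 < x := lt_of_lt_of_le ha hx.1
    have h3 : HasDerivAt (fun w : ℝ => (w : ℂ)) ((1 : ℝ) : ℂ) x := (hasDerivAt_id x).ofReal_comp
    have h4 := (h3.mul_const (nit t (a + 1))).sub (EM_g_deriv t hx0)
    rw [Complex.ofReal_one, one_mul] at h4
    exact h4.hasDerivWithinAt
  have hb : ∀ x ∈ Set.Ico a (a + 1), ‖nit t (a + 1) - nit t x‖ ≤
      |t| * (Real.log (a + 1) - Real.log a) := by
    intro x hx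
    have hx0 : 0 < x := lt_of_lt_of_le ha hx.1
    refine (EM_nit_sub t (a + 1) x).trans ?_
    have hl1 : Real.log x ≤ Real.log (a + 1) := Real.log_le_log hx0 hx.2.le
    have hl2 : Real.log a ≤ Real.log x := Real.log_le_log ha hx.1
    rw [abs_of_nonneg (show 0 ≤ Real.log (a + 1) - Real.log x by linarith)]
    exact mul_le_mul_of_nonneg_left (by linarith) (abs_nonneg t)
  have h := norm_image_sub_le_of_norm_deriv_le_segment' hF hb (a + 1) ⟨by linarith, le_refl _⟩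
  have he : ((a + 1 : ℝ) : ℂ) * nit t (a + 1) - EM_g t (a + 1) -
      ((a : ℂ) * nit t (a + 1) - EM_g t a) =
      nit t (a + 1) - (EM_g t (a + 1) - EM_g t a) := by
    push_cast
    ring
  rw [he] at h
  refine h.trans (le_of_eq ?_)
  ring

private lemma EM_ind (t θ : ℝ) (hθ : 0 ≤ θ) (U : ℕ) :
    ‖∑ n ∈ Ioc 0 (U + 1), nit t (n + θ) - nit t (1 + θ) -
        (EM_g t ((U + 1 : ℕ) + θ) - EM_g t (1 + θ))‖ ≤
      |t| * (Real.log ((U + 1 : ℕ) + θ) - Real.log (1 + θ)) := by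
  induction U with
  | zero =>
    simp
  | succ U ih =>
    have hpos : (0 : ℝ) < ((U + 1 : ℕ) : ℝ) + θ := by
      have : (0 : ℝ) < ((U + 1 : ℕ) : ℝ) := by exact_mod_cast Nat.succ_pos U
      linarith
    have hst := EM_step t hpos
    have hcast : ((U + 1 : ℕ) : ℝ) + θ + 1 = ((U + 1 + 1 : ℕ) : ℝ) + θ := by
      push_cast
      ring
    rw [hcast] at hst
    rw [← Finset.sum_Ioc_consecutive (fun n : ℕ => nit t ((n : ℝ) + θ)) (Nat.zero_le (U + 1))
      (Nat.le_succ (U + 1)), Nat.Ioc_succ_singleton, Finset.sum_singleton]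
    have he : ∑ n ∈ Ioc 0 (U + 1), nit t ((n : ℝ) + θ) + nit t (((U + 1 + 1 : ℕ) : ℝ) + θ) -
        nit t (1 + θ) - (EM_g t (((U + 1 + 1 : ℕ) : ℝ) + θ) - EM_g t (1 + θ)) =
        (∑ n ∈ Ioc 0 (U + 1), nit t ((n : ℝ) + θ) - nit t (1 + θ) -
          (EM_g t (((U + 1 : ℕ) : ℝ) + θ) - EM_g t (1 + θ))) +
        (nit t (((U + 1 + 1 : ℕ) : ℝ) + θ) -
          (EM_g t (((U + 1 + 1 : ℕ) : ℝ) + θ) - EM_g t (((U + 1 : ℕ) : ℝ) + θ))) := by
      ring
    have h := norm_add_le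
      (∑ n ∈ Ioc 0 (U + 1), nit t ((n : ℝ) + θ) - nit t (1 + θ) -
          (EM_g t (((U + 1 : ℕ) : ℝ) + θ) - EM_g t (1 + θ)))
      (nit t (((U + 1 + 1 : ℕ) : ℝ) + θ) -
          (EM_g t (((U + 1 + 1 : ℕ) : ℝ) + θ) - EM_g t (((U + 1 : ℕ) : ℝ) + θ)))
    rw [← he] at h
    refine h.trans ?_
    have h2 := add_le_add ih hst
    refine h2.trans (le_of_eq ?_)
    ring

private lemma EM_g_norm (t : ℝ) (ht : t ≠ 0) {v : ℝ} (hv : 0 < v) : ‖EM_g t v‖ ≤ v / |t| := by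
  unfold EM_g
  rw [norm_div, norm_mul, EM_norm_nit, mul_one, Complex.norm_real, Real.norm_eq_abs,
    abs_of_pos hv]
  exact div_le_div_of_nonneg_left hv.le (abs_pos.mpr ht) (EM_den_norm t)

/-- **EM**. -/
theorem EM : EM_stmt := by
  intro t u θ ht hu hθ0 hθ1
  have hU1 : 1 ≤ ⌊u⌋₊ := Nat.le_floor (by exact_mod_cast hu)
  obtain ⟨U, hU⟩ : ∃ U : ℕ, ⌊u⌋₊ = U + 1 := ⟨⌊u⌋₊ - 1, by omega⟩
  have hUu : ((U + 1 : ℕ) : ℝ) ≤ u := by
    rw [← hU]
    exact Nat.floor_le (by linarith)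
  have hU1' : (1 : ℝ) ≤ ((U + 1 : ℕ) : ℝ) := by
    have : 1 ≤ U + 1 := by omega
    exact_mod_cast this
  have htp : 0 < |t| := abs_pos.mpr ht
  rw [hU]
  have h := EM_ind t θ hθ0 U
  have hg1 := EM_g_norm t ht (v := ((U + 1 : ℕ) : ℝ) + θ) (by linarith)
  have hg2 := EM_g_norm t ht (v := 1 + θ) (by linarith)
  have hlog : Real.log (((U + 1 : ℕ) : ℝ) + θ) - Real.log (1 + θ) ≤ Real.log u := by
    rw [← Real.log_div (by linarith) (by linarith)]
    apply Real.log_le_log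
    · apply div_pos <;> linarith
    · rw [div_le_iff₀ (by linarith)]
      nlinarith
  have he : ∑ n ∈ Ioc 0 (U + 1), nit t ((n : ℝ) + θ) =
      (∑ n ∈ Ioc 0 (U + 1), nit t ((n : ℝ) + θ) - nit t (1 + θ) -
        (EM_g t (((U + 1 : ℕ) : ℝ) + θ) - EM_g t (1 + θ))) +
      (nit t (1 + θ) + (EM_g t (((U + 1 : ℕ) : ℝ) + θ) - EM_g t (1 + θ))) := by
    ring
  rw [he]
  refine (norm_add_le _ _).trans ?_
  have h3 : ‖nit t (1 + θ) + (EM_g t (((U + 1 : ℕ) : ℝ) + θ) - EM_g t (1 + θ))‖ ≤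
      1 + ((((U + 1 : ℕ) : ℝ) + θ) / |t| + (1 + θ) / |t|) := by
    refine (norm_add_le _ _).trans ?_
    rw [EM_norm_nit]
    have := (norm_sub_le (EM_g t (((U + 1 : ℕ) : ℝ) + θ)) (EM_g t (1 + θ))).trans
      (add_le_add hg1 hg2)
    linarith
  have h4 : (((U + 1 : ℕ) : ℝ) + θ) / |t| + (1 + θ) / |t| ≤ 4 * u / |t| := by
    rw [← add_div]
    apply div_le_div_of_nonneg_right _ htp.le
    linarith
  have h5 : |t| * (Real.log (((U + 1 : ℕ) : ℝ) + θ) - Real.log (1 + θ)) ≤ |t| * Real.log u :=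
    mul_le_mul_of_nonneg_left hlog htp.le
  linarith

end Pool.Agent.CH
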