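import Pool.Agent.helper17.CH.SpecQ

/-!
# Project CH (MP_5628fe_nt), part Q: row QN
-/

set_option autoImplicit false

namespace Pool.Agent.CH

open Finset ArithmeticFunction MeasureTheory

private lemma QN_growth (A : ℕ) : ∃ N₀ : ℕ, ∀ N : ℕ, N₀ ≤ N → 10 ≤ Real.log N ∧ 2 ≤ N ∧
    (N : ℝ) ^ (3 - (1 / 20 : ℝ) / 2) ≤ (N : ℝ) ^ 3 / Real.log N ^ (A + 1) := by
  have h1 := (isLittleO_log_rpow_rpow_atTop ((A + 1 : ℕ) : ℝ) (show (0 : ℝ) < 1 / 40 by norm_num))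
  have h2 := h1.bound (show (0 : ℝ) < 1 by norm_num)
  have h3 := (tendsto_natCast_atTop_atTop (R := ℝ)).eventually h2
  have h4 := (tendsto_natCast_atTop_atTop (R := ℝ)).eventually
    (Real.tendsto_log_atTop.eventually_ge_atTop 10)
  obtain ⟨N₀, hN₀⟩ := Filter.eventually_atTop.1 (h3.and (h4.and (Filter.eventually_ge_atTop 2)))
  refine ⟨N₀, fun N hN => ?_⟩
  obtain ⟨h5, h6, h7⟩ := hN₀ N hN
  refine ⟨h6, h7, ?_⟩
  have hN0 : (0 : ℝ) < N := by
    have : 0 < N := by omega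
    exact_mod_cast this
  have hl : 0 < Real.log N := by linarith
  rw [one_mul, Real.rpow_natCast, Real.norm_of_nonneg (by positivity),
    Real.norm_of_nonneg (by positivity)] at h5
  rw [le_div_iff₀ (by positivity)]
  calc (N : ℝ) ^ (3 - (1 / 20 : ℝ) / 2) * Real.log N ^ (A + 1)
      ≤ (N : ℝ) ^ (3 - (1 / 20 : ℝ) / 2) * (N : ℝ) ^ (1 / 40 : ℝ) :=
        mul_le_mul_of_nonneg_left h5 (by positivity)
    _ = (N : ℝ) ^ 3 := by
        rw [← Real.rpow_add hN0]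
        norm_num

/-- **QN**. -/
theorem QN (hqhw : QHW_stmt) (hbd : BD_stmt) (hlps : LPS_stmt) (hqps : QPS_stmt) : QN_stmt := by
  classical
  intro A B
  obtain ⟨B₀, hB₀⟩ := hqhw (1 / 20) (A + 1) B (by norm_num) (le_refl _)
  obtain ⟨N₁, hN₁⟩ := hB₀ B₀ (le_refl _)
  obtain ⟨N₂, hN₂⟩ := hbd (1 / 20) (by norm_num) (by norm_num)
  obtain ⟨N₃, hN₃⟩ := hqps (A + B₀ + 2) B
  obtain ⟨N₄, hN₄⟩ := QN_growth A
  refine ⟨max (max N₁ N₂) (max N₃ N₄), fun N hN z y hPZ q hq hqB χ hχ c hc => ?_⟩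
  have hle1 : N₁ ≤ N := (le_max_left _ _).trans ((le_max_left _ _).trans hN)
  have hle2 : N₂ ≤ N := (le_max_right _ _).trans ((le_max_left _ _).trans hN)
  have hle3 : N₃ ≤ N := (le_max_left _ _).trans ((le_max_right _ _).trans hN)
  have hle4 : N₄ ≤ N := (le_max_right _ _).trans ((le_max_right _ _).trans hN)
  obtain ⟨hlog, hN2, hgrow⟩ := hN₄ N hle4
  have hlpos : 0 < Real.log N := by linarith
  have hN0 : (0 : ℝ) < N := by
    have : 0 < N := by omega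
    exact_mod_cast this
  -- the coefficients
  let f : ℕ → ℂ := fun j => if j ∈ BN N z y then χ j else 0
  have hf1 : ∀ j, ‖f j‖ ≤ 1 := by
    intro j
    by_cases hj : j ∈ BN N z y
    · simp only [f, if_pos hj]
      exact DirichletCharacter.norm_le_one χ _
    · simp only [f, if_neg hj, norm_zero]
      exact zero_le_one
  have hsub : BN N z y ⊆ Ioc 0 (64 * N ^ 3) := Finset.filter_subset _ _
  have hsum : ∀ g : ℕ → ℂ, ∑ j ∈ Ioc 0 (64 * N ^ 3), f j * g j = ∑ b ∈ BN N z y, χ b * g b := by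
    intro g
    simp only [f, ite_mul, zero_mul]
    rw [Finset.sum_ite_mem, Finset.inter_eq_right.2 hsub]
  have h1 := hN₂ N hle2 c hc 1 f hf1
  rw [hsum, one_mul] at h1
  have h2 := hN₁ N hle1 c hc z y hPZ q hq hqB χ
  have hps : ∀ u ≤ 64 * N ^ 3, ‖∑ j ∈ Ioc 0 u, f j‖ ≤ (N : ℝ) ^ 3 / Real.log N ^ (A + B₀ + 2) := by
    intro u hu
    have h := hN₃ N hle3 z y hPZ q hq hqB χ hχ u hu
    have he : ∑ j ∈ Ioc 0 u, f j = ∑ b ∈ (BN N z y).filter (fun b => b ≤ u), χ b := by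
      simp only [f]
      rw [Finset.sum_ite_mem]
      apply Finset.sum_congr _ fun _ _ => rfl
      ext b
      simp only [Finset.mem_inter, Finset.mem_Ioc, Finset.mem_filter]
      constructor
      · rintro ⟨⟨_, h1⟩, h2⟩
        exact ⟨h2, h1⟩
      · rintro ⟨h1, h2⟩
        exact ⟨⟨(Finset.mem_Ioc.1 (hsub h1)).1, h2⟩, h1⟩
    rw [he]
    exact h
  have hdpos : 0 < dB B₀ N := by
    unfold dB
    positivity
  have hd1 : dB B₀ N ≤ 1 := by
    unfold dB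
    rw [div_le_one (by positivity)]
    exact one_le_pow₀ (by linarith)
  have h3 := hlps N (64 * N ^ 3) c (dB B₀ N) ((N : ℝ) ^ 3 / Real.log N ^ (A + B₀ + 2)) f
    (by omega) hc hdpos hd1 hps
  rw [hsum] at h3
  -- the sum splits
  have hsplit : ∑ b ∈ BN N z y, χ b * (cc N c b : ℂ) =
      ∑ b ∈ BN N z y, χ b * ((cc N c b - Ph N c (de (1 / 20) N) (Real.log b) : ℝ) : ℂ) +
      ∑ b ∈ BN N z y, χ b * gW N c (de (1 / 20) N) (dB B₀ N) b +
      ∑ b ∈ BN N z y, χ b * ((Ph N c (dB B₀ N) (Real.log b) : ℝ) : ℂ) := by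
    rw [← Finset.sum_add_distrib, ← Finset.sum_add_distrib]
    apply Finset.sum_congr rfl
    intro b _
    unfold gW
    push_cast
    ring
  rw [hsplit]
  refine (norm_add₃_le).trans ?_
  have h4 : 4 * ((N : ℝ) ^ 3 / Real.log N ^ (A + B₀ + 2)) / dB B₀ N =
      4 * (N : ℝ) ^ 3 / Real.log N ^ (A + 2) := by
    unfold dB
    rw [show A + B₀ + 2 = (A + 2) + B₀ by ring, pow_add (Real.log N) (A + 2) B₀]
    field_simp
  rw [h4] at h3
  have h5 : (N : ℝ) ^ 3 / Real.log N ^ (A + 1) ≤ (N : ℝ) ^ 3 / Real.log N ^ A / 10 := by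
    rw [pow_succ (Real.log N) A, ← div_div]
    exact div_le_div_of_nonneg_left (by positivity) (by norm_num) hlog
  have h6 : 4 * (N : ℝ) ^ 3 / Real.log N ^ (A + 2) ≤ (N : ℝ) ^ 3 / Real.log N ^ A * (4 / 10) := by
    have h7 : Real.log N ^ (A + 2) = Real.log N ^ A * Real.log N ^ 2 := pow_add _ _ _
    have h8 : (10 : ℝ) ≤ Real.log N ^ 2 := by nlinarith
    rw [h7, div_mul_eq_mul_div, div_le_div_iff₀ (by positivity) (by positivity)]
    have h9 : 0 ≤ (N : ℝ) ^ 3 * Real.log N ^ A := by positivity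
    nlinarith [mul_le_mul_of_nonneg_left h8 h9]
  have h10 : 0 ≤ (N : ℝ) ^ 3 / Real.log N ^ A := by positivity
  linarith

end Pool.Agent.CH
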